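import Pool.Agent.Helper63.Sey4.Goals

/-!
# Project SEY4: existence of the units
-/

namespace Pool.Agent.Helper83.Sey4

open Pool.Agent.Helper63.Sey4 Finset

/-- The index of a pair. -/
def idx {k : ℕ} (a : Fin k) (b : Bool) : Fin (2 * k) :=
  ⟨2 * a.val + (if b then 1 else 0), by have := a.isLt; split_ifs <;> omega⟩

theorem idx_inj {k : ℕ} {a a' : Fin k} {b b' : Bool} (h : idx a b = idx a' b') :
    a = a' ∧ b = b' := by
  have h1 : 2 * a.val + (if b then 1 else 0) = 2 * a'.val + (if b' then 1 else 0) :=
    congrArg Fin.val h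
  cases b <;> cases b' <;> simp at h1
  · exact ⟨Fin.ext h1, rfl⟩
  · omega
  · omega
  · exact ⟨Fin.ext h1, rfl⟩

theorem goalUNITS : GoalMATCH → GoalUNITS := by
  classical
  intro hM V _ H f s Δ D hS hcard hdeg
  -- the matchings
  have key : ∀ i : Fin s, ∃ m : Fin (2 * (Nat.card {v // f v = i.val} - Δ)) × Bool → V,
      Function.Injective m ∧ (∀ x, f (m x) = i.val) ∧
        ∀ a, ¬ H.Adj (m (a, false)) (m (a, true)) := by
    intro i
    have hn : (univ.filter (fun v => f v = i.val)).card = Nat.card {v // f v = i.val} := by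
      rw [Nat.card_eq_fintype_card, Fintype.card_subtype]
    have hlow := hS.hlow i.val i.isLt
    have hΔ := hS.hΔ
    have hset : ∀ v, f v = i.val →
        Nat.card {u // u ∈ univ.filter (fun v => f v = i.val) ∧ (u ≠ v ∧ ¬ H.Adj v u)} =
        Nat.card {u // u ≠ v ∧ f u = f v ∧ ¬ H.Adj v u} := by
      intro v hv
      refine Nat.card_congr (Equiv.subtypeEquivRight fun u => ?_)
      rw [mem_filter, hv]
      constructor
      · rintro ⟨⟨_, h1⟩, h2, h3⟩
        exact ⟨h2, h1, h3⟩
      · rintro ⟨h2, h1, h3⟩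
        exact ⟨⟨mem_univ _, h1⟩, h2, h3⟩
    obtain ⟨m, hm1, hm2, hm3⟩ := hM V (fun v u => u ≠ v ∧ ¬ H.Adj v u)
      (univ.filter (fun v => f v = i.val)) (Nat.card {v // f v = i.val} - Δ) D
      (fun u v h => ⟨h.1.symm, fun h' => h.2 h'.symm⟩) (fun v h => h.1 rfl)
      (by
        rw [← Finset.card_pos, hn]
        omega)
      (by
        intro v hv
        rw [mem_filter] at hv
        rw [hset v hv.2]
        have := hdeg v
        rw [hv.2] at this
        rw [hv.2]
        omega)
      (by
        intro v hv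
        rw [mem_filter] at hv
        rw [hset v hv.2]
        exact hS.hin v)
      (by
        rw [hn]
        omega)
    refine ⟨m, hm1, fun x => ?_, fun a => (hm3 a).2⟩
    have := hm2 x
    rw [mem_filter] at this
    exact this.2
  choose m hm1 hm2 hm3 using key
  -- numbers
  have hsum : ∑ i : Fin s, Nat.card {v // f v = i.val} = Fintype.card V := by
    have h1 := Finset.card_eq_sum_card_fiberwise (f := f) (s := (univ : Finset V))
      (t := range s) (by
        intro v _
        rw [Finset.coe_range, Set.mem_Iio]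
        exact hS.hf v)
    rw [Finset.sum_range] at h1
    rw [← Finset.card_univ, h1]
    refine Finset.sum_congr rfl fun i _ => ?_
    rw [Nat.card_eq_fintype_card, Fintype.card_subtype]
  have hle : Fintype.card (Σ j : Fin s, Fin (Δ - Nat.card {v // f v = j.val})) ≤
      Fintype.card (Σ i : Fin s, Fin (Nat.card {v // f v = i.val} - Δ)) := by
    rw [Fintype.card_sigma, Fintype.card_sigma]
    simp only [Fintype.card_fin]
    have h1 : ∑ i : Fin s, ((Nat.card {v // f v = i.val} - Δ) + Δ) =
        ∑ i : Fin s, (Nat.card {v // f v = i.val} + (Δ - Nat.card {v // f v = i.val})) :=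
      Finset.sum_congr rfl fun i _ => by omega
    rw [Finset.sum_add_distrib, Finset.sum_add_distrib, hsum, Finset.sum_const, Finset.card_univ,
      Fintype.card_fin, smul_eq_mul] at h1
    omega
  obtain ⟨g⟩ := Function.Embedding.nonempty_of_card_le hle
  let neg : (Σ i : Fin s, Fin (Nat.card {v // f v = i.val} - Δ)) → ℕ := fun e =>
    if h : ∃ y, g y = e then (Classical.choose h).1.val else s
  have hneg_g : ∀ y, neg (g y) = y.1.val := by
    intro y
    have hex : ∃ y', g y' = g y := ⟨y, rfl⟩
    have h1 : neg (g y) = (Classical.choose hex).1.val := dif_pos hex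
    have h2 : Classical.choose hex = y := g.injective (Classical.choose_spec hex)
    rw [h1, h2]
  have hneg_lt : ∀ e, neg e < s → ∃ y, g y = e := by
    intro e he
    by_contra hcon
    have h1 : neg e = s := dif_neg hcon
    omega
  have hpos_card : ∀ i < s, Nat.card {e : (Σ i : Fin s, Fin (Nat.card {v // f v = i.val} - Δ)) //
      e.1.val = i} = Nat.card {v // f v = i} - Δ := by
    intro i hi
    have hb : Function.Bijective (fun a : Fin (Nat.card {v // f v = i} - Δ) =>
        (⟨⟨⟨i, hi⟩, a⟩, rfl⟩ : {e : (Σ i : Fin s, Fin (Nat.card {v // f v = i.val} - Δ)) //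
          e.1.val = i})) := by
      constructor
      · intro a a' h
        have h1 := congrArg Subtype.val h
        have h2 := Sigma.mk.inj h1
        exact eq_of_heq h2.2
      · rintro ⟨⟨⟨j, hj⟩, a⟩, hja⟩
        have hji : j = i := hja
        subst hji
        exact ⟨a, rfl⟩
    rw [← Nat.card_congr (Equiv.ofBijective _ hb), Nat.card_eq_fintype_card, Fintype.card_fin]
  have hneg_card : ∀ i < s, Nat.card {e // neg e = i} = Δ - Nat.card {v // f v = i} := by
    intro i hi
    have hb : Function.Bijective (fun a : Fin (Δ - Nat.card {v // f v = i}) =>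
        (⟨g ⟨⟨i, hi⟩, a⟩, hneg_g _⟩ : {e // neg e = i})) := by
      constructor
      · intro a a' h
        have h1 := g.injective (congrArg Subtype.val h)
        have h2 := Sigma.mk.inj h1
        exact eq_of_heq h2.2
      · rintro ⟨e, he⟩
        obtain ⟨y, hy⟩ := hneg_lt e (by omega)
        obtain ⟨⟨j, hj⟩, a⟩ := y
        have hji : j = i := by
          have := hneg_g ⟨⟨j, hj⟩, a⟩
          rw [hy, he] at this
          exact this.symm
        subst hji
        exact ⟨a, Subtype.ext hy⟩
    rw [← Nat.card_congr (Equiv.ofBijective _ hb), Nat.card_eq_fintype_card, Fintype.card_fin]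
  refine ⟨(Σ i : Fin s, Fin (Nat.card {v // f v = i.val} - Δ)), inferInstance,
    fun e => e.1.val, neg, fun x => m x.1.1 (idx x.1.2 x.2.1, x.2.2), ?_⟩
  refine ⟨fun e => e.1.isLt, ?_, ?_, ?_, ?_, ?_, ?_, ?_, ?_⟩
  · intro e
    by_cases h : ∃ y, g y = e
    · obtain ⟨y, rfl⟩ := h
      rw [hneg_g]
      exact le_of_lt y.1.isLt
    · have h1 : neg e = s := dif_neg h
      omega
  · intro e he
    obtain ⟨y, rfl⟩ := hneg_lt e (by rw [he]; exact e.1.isLt)
    rw [hneg_g] at he
    have h1 : 0 < Δ - Nat.card {v // f v = y.1.val} := lt_of_le_of_lt (Nat.zero_le _) y.2.isLt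
    have h2 : 0 < Nat.card {v // f v = (g y).1.val} - Δ :=
      lt_of_le_of_lt (Nat.zero_le _) (g y).2.isLt
    rw [he] at h1
    omega
  · rintro ⟨⟨i, a⟩, b, c⟩ ⟨⟨i', a'⟩, b', c'⟩ h
    have h1 : i = i' := by
      apply Fin.ext
      have h2 := hm2 i (idx a b, c)
      have h3 := hm2 i' (idx a' b', c')
      have h4 : m i (idx a b, c) = m i' (idx a' b', c') := h
      rw [← h2, h4, h3]
    subst h1
    have h5 := hm1 i h
    have h6 : idx a b = idx a' b' := congrArg Prod.fst h5
    have h7 : c = c' := congrArg Prod.snd h5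
    obtain ⟨h8, h9⟩ := idx_inj h6
    rw [h7, h8, h9]
  · intro e b c
    exact hm2 e.1 _
  · intro e b
    exact hm3 e.1 _
  · intro i hi
    have h1 : Nat.card {e : (Σ i : Fin s, Fin (Nat.card {v // f v = i.val} - Δ)) //
      e.1.val = i} = Nat.card {v // f v = i} - Δ := hpos_card i hi
    have h2 := hneg_card i hi
    rw [h2]
    show _ = Δ + Nat.card {e : (Σ i : Fin s, Fin (Nat.card {v // f v = i.val} - Δ)) //
      e.1.val = i}
    rw [h1]
    omega
  · intro i hi
    show Nat.card {e : (Σ i : Fin s, Fin (Nat.card {v // f v = i.val} - Δ)) //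
      e.1.val = i} ≤ D
    rw [hpos_card i hi]
    have := hS.hupp i hi
    omega
  · intro i hi
    rw [hneg_card i hi]
    have := hS.hlow i hi
    omega

end Pool.Agent.Helper83.Sey4
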